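import Pool.Agent.Q204.PDP.Par

/-! # Project PD: job Dlm (properties of the function `Dn`) -/

set_option autoImplicit false

namespace Pool.Agent.Q211.PD

open Finset Filter Topology
open Pool.Agent.H499R2.ND Pool.Agent.H320R2.PD Pool.Agent.Q74.PD
open Pool.Agent.Q204.PDP (sum_affine)

open Classical in
/-- one term of the recursion -/
noncomputable def tm (d : ℤ) (n : ℕ) (a : ℤ) (e : ℕ) : ℝ :=
  if (3 : ℤ) ∣ 2 ^ (e + 1) * a - d then 3 * (1 / 2 : ℝ) ^ (e + 1) * Dn d n ((2 ^ (e + 1) * a - d) / 3) else 0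

theorem Dn_zero (d a : ℤ) : Dn d 0 a = 1 := rfl

theorem Dn_succ (d : ℤ) (n : ℕ) (a : ℤ) : Dn d (n + 1) a = ∑' e : ℕ, tm d n a e := rfl

theorem geo (C : ℝ) : HasSum (fun e : ℕ => C * (1 / 2 : ℝ) ^ (e + 1)) C := by
  have h1 := hasSum_geometric_two.mul_left (C / 2)
  have h2 : C / 2 * 2 = C := by ring
  rw [h2] at h1
  refine h1.congr_fun ?_ |> fun h => h
  intro e
  rw [pow_succ]; ring

theorem Dn_bd (d : ℤ) (n : ℕ) : ∀ a : ℤ, 0 ≤ Dn d n a ∧ Dn d n a ≤ 3 ^ n := by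
  induction n with
  | zero => intro a; rw [Dn_zero]; norm_num
  | succ n ih =>
    intro a
    have h0 : ∀ e, 0 ≤ tm d n a e := by
      intro e
      unfold tm
      split_ifs
      · have := (ih ((2 ^ (e + 1) * a - d) / 3)).1
        positivity
      · exact le_rfl
    have h1 : ∀ e, tm d n a e ≤ 3 ^ (n + 1) * (1 / 2 : ℝ) ^ (e + 1) := by
      intro e
      unfold tm
      split_ifs
      · have := (ih ((2 ^ (e + 1) * a - d) / 3)).2
        calc 3 * (1 / 2 : ℝ) ^ (e + 1) * Dn d n ((2 ^ (e + 1) * a - d) / 3) ≤ 3 * (1 / 2 : ℝ) ^ (e + 1) * 3 ^ n :=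
              mul_le_mul_of_nonneg_left this (by positivity)
          _ = _ := by rw [pow_succ]; ring
      · positivity
    have hs := (geo (3 ^ (n + 1))).summable
    rw [Dn_succ]
    refine ⟨tsum_nonneg h0, ?_⟩
    have h2 := (Summable.of_nonneg_of_le h0 h1 hs).tsum_le_tsum h1 hs
    rwa [(geo (3 ^ (n + 1))).tsum_eq] at h2

theorem tm_nonneg (d : ℤ) (n : ℕ) (a : ℤ) (e : ℕ) : 0 ≤ tm d n a e := by
  unfold tm
  split_ifs
  · have := (Dn_bd d n ((2 ^ (e + 1) * a - d) / 3)).1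
    positivity
  · exact le_rfl

theorem tm_le (d : ℤ) (n : ℕ) (a : ℤ) (e : ℕ) : tm d n a e ≤ 3 ^ (n + 1) * (1 / 2 : ℝ) ^ (e + 1) := by
  unfold tm
  split_ifs
  · have := (Dn_bd d n ((2 ^ (e + 1) * a - d) / 3)).2
    calc 3 * (1 / 2 : ℝ) ^ (e + 1) * Dn d n ((2 ^ (e + 1) * a - d) / 3) ≤ 3 * (1 / 2 : ℝ) ^ (e + 1) * 3 ^ n :=
          mul_le_mul_of_nonneg_left this (by positivity)
      _ = _ := by rw [pow_succ]; ring
  · positivity

theorem tm_summable (d : ℤ) (n : ℕ) (a : ℤ) : Summable (tm d n a) :=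
  Summable.of_nonneg_of_le (tm_nonneg d n a) (tm_le d n a) (geo (3 ^ (n + 1))).summable

/-! ### the truncation -/

theorem Dc_nonneg (d : ℤ) (cap n : ℕ) (a : ℤ) : 0 ≤ Dc d cap n a := by
  unfold Dc
  refine sum_nonneg fun w _ => ?_
  split_ifs
  · have := wwt_nonneg w
    positivity
  · exact le_rfl

theorem Dc_zero (d : ℤ) (cap : ℕ) (a : ℤ) : Dc d cap 0 a = 1 := by
  unfold Dc
  rw [sum_FW_zero]
  simp [wwt]

open Classical in
theorem Dc_succ (d : ℤ) (cap n : ℕ) (a : ℤ) : Dc d cap (n + 1) a =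
    ∑ e ∈ Icc 1 cap, if (3 : ℤ) ∣ 2 ^ e * a - d then 3 * (1 / 2 : ℝ) ^ e * Dc d cap n ((2 ^ e * a - d) / 3) else 0 := by
  unfold Dc
  rw [sum_FW_succ]
  refine sum_congr rfl fun e _ => ?_
  by_cases h : (3 : ℤ) ∣ 2 ^ e * a - d
  · rw [if_pos h, mul_sum]
    refine sum_congr rfl fun v _ => ?_
    obtain ⟨b, hb⟩ := h
    have hb' : (2 ^ e * a - d) / 3 = b := by rw [hb]; simp
    have e1 : (2 : ℤ) ^ (e :: v).sum * a - d * (Wo (e :: v) : ℕ) = 3 * (2 ^ v.sum * b - d * (Wo v : ℕ)) := by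
      rw [List.sum_cons, Wo, pow_add]
      push_cast
      linear_combination (2 : ℤ) ^ v.sum * hb
    have e2 : (3 : ℤ) ^ (n + 1) ∣ 2 ^ (e :: v).sum * a - d * (Wo (e :: v) : ℕ) ↔
        (3 : ℤ) ^ n ∣ 2 ^ v.sum * b - d * (Wo v : ℕ) := by
      rw [e1, pow_succ, mul_comm ((3 : ℤ) ^ n) 3]
      exact mul_dvd_mul_iff_left (by norm_num)
    have e3 : wwt (e :: v) = (1 / 2 : ℝ) ^ e * wwt v := by
      unfold wwt
      rw [List.sum_cons, pow_add]
    rw [hb']
    by_cases h2 : (3 : ℤ) ^ n ∣ 2 ^ v.sum * b - d * (Wo v : ℕ)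
    · rw [if_pos (e2.2 h2), if_pos h2, e3, pow_succ]; ring
    · rw [if_neg (fun h3 => h2 (e2.1 h3)), if_neg h2, mul_zero]
  · rw [if_neg h]
    refine sum_eq_zero fun v _ => ?_
    rw [if_neg]
    intro h2
    apply h
    have h3 : (3 : ℤ) ∣ 2 ^ (e :: v).sum * a - d * (Wo (e :: v) : ℕ) := (dvd_pow_self 3 (by omega)).trans h2
    have e1 : (2 : ℤ) ^ (e :: v).sum * a - d * (Wo (e :: v) : ℕ) = 2 ^ v.sum * (2 ^ e * a - d) - 3 * (d * (Wo v : ℕ)) := by
      rw [List.sum_cons, Wo, pow_add]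
      push_cast
      ring
    rw [e1] at h3
    have h4 : (3 : ℤ) ∣ 2 ^ v.sum * (2 ^ e * a - d) := by
      have := dvd_add h3 (Dvd.intro (d * (Wo v : ℕ)) rfl : (3 : ℤ) ∣ 3 * (d * (Wo v : ℕ)))
      rwa [sub_add_cancel] at this
    have hcop : IsCoprime (3 : ℤ) (2 ^ v.sum) := IsCoprime.pow_right (by exact ⟨1, -1, by norm_num⟩)
    exact hcop.dvd_of_dvd_mul_left h4

theorem Icc_range (f : ℕ → ℝ) (cap : ℕ) : ∑ e ∈ Icc 1 cap, f e = ∑ e ∈ range cap, f (e + 1) := by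
  induction cap with
  | zero => simp
  | succ c ih => rw [sum_Icc_succ_top (by omega), ih, sum_range_succ]

theorem geo_range (cap : ℕ) : ∑ e ∈ range cap, (1 / 2 : ℝ) ^ (e + 1) = 1 - (1 / 2) ^ cap := by
  induction cap with
  | zero => simp
  | succ c ih => rw [sum_range_succ, ih, pow_succ]; ring

theorem tail_le (d : ℤ) (n : ℕ) (a : ℤ) (cap : ℕ) :
    Dn d (n + 1) a ≤ ∑ e ∈ range cap, tm d n a e + 3 ^ (n + 1) * (1 / 2) ^ cap := by
  rw [Dn_succ, ← (tm_summable d n a).sum_add_tsum_nat_add cap]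
  have h1 : ∀ e, tm d n a (e + cap) ≤ (3 ^ (n + 1) * (1 / 2 : ℝ) ^ cap) * (1 / 2 : ℝ) ^ (e + 1) := by
    intro e
    refine (tm_le d n a (e + cap)).trans (le_of_eq ?_)
    rw [show e + cap + 1 = cap + (e + 1) by ring, pow_add]; ring
  have hs := geo (3 ^ (n + 1) * (1 / 2 : ℝ) ^ cap)
  have h2 := ((summable_nat_add_iff cap).2 (tm_summable d n a)).tsum_le_tsum h1 hs.summable
  rw [hs.tsum_eq] at h2
  linarith

theorem trunc (d : ℤ) (n : ℕ) : ∀ (cap : ℕ) (a : ℤ), Dc d cap n a ≤ Dn d n a ∧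
    Dn d n a ≤ Dc d cap n a + 3 ^ n * n * (1 / 2) ^ cap := by
  classical
  induction n with
  | zero =>
    intro cap a
    rw [Dc_zero, Dn_zero]
    simp
  | succ n ih =>
    intro cap a
    rw [Dc_succ, Icc_range]
    constructor
    · rw [Dn_succ]
      refine le_trans (sum_le_sum fun e _ => ?_) ((tm_summable d n a).sum_le_tsum (range cap)
        (fun e _ => tm_nonneg d n a e))
      unfold tm
      by_cases h : (3 : ℤ) ∣ 2 ^ (e + 1) * a - d
      · rw [if_pos h, if_pos h]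
        exact mul_le_mul_of_nonneg_left (ih cap _).1 (by positivity)
      · rw [if_neg h, if_neg h]
    · refine (tail_le d n a cap).trans ?_
      have h1 : ∑ e ∈ range cap, tm d n a e ≤ ∑ e ∈ range cap,
          ((if (3 : ℤ) ∣ 2 ^ (e + 1) * a - d then
            3 * (1 / 2 : ℝ) ^ (e + 1) * Dc d cap n ((2 ^ (e + 1) * a - d) / 3) else 0) +
            (3 ^ (n + 1) * n * (1 / 2) ^ cap) * (1 / 2) ^ (e + 1)) := by
        refine sum_le_sum fun e _ => ?_
        unfold tm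
        by_cases h : (3 : ℤ) ∣ 2 ^ (e + 1) * a - d
        · rw [if_pos h, if_pos h]
          have h2 := mul_le_mul_of_nonneg_left (ih cap ((2 ^ (e + 1) * a - d) / 3)).2
            (by positivity : (0 : ℝ) ≤ 3 * (1 / 2) ^ (e + 1))
          refine h2.trans (le_of_eq ?_)
          rw [pow_succ (3 : ℝ) n]; ring
        · rw [if_neg h, if_neg h]
          positivity
      rw [sum_add_distrib, ← mul_sum, geo_range] at h1
      have h3 : (3 ^ (n + 1) * (n : ℝ) * (1 / 2) ^ cap) * (1 - (1 / 2) ^ cap) ≤ 3 ^ (n + 1) * (n : ℝ) * (1 / 2) ^ cap := by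
        have : (0 : ℝ) < (1 / 2) ^ cap := by positivity
        have h4 : 0 ≤ 3 ^ (n + 1) * (n : ℝ) * (1 / 2) ^ cap := by positivity
        nlinarith
      push_cast
      nlinarith

/-! ### the period -/

theorem Dn_period (d : ℤ) (n : ℕ) : ∀ a b : ℤ, Dn d n (a + 3 ^ n * b) = Dn d n a := by
  induction n with
  | zero => intro a b; rfl
  | succ n ih =>
    intro a b
    rw [Dn_succ, Dn_succ]
    refine tsum_congr fun e => ?_
    have e1 : (2 : ℤ) ^ (e + 1) * (a + 3 ^ (n + 1) * b) - d = (2 ^ (e + 1) * a - d) + 3 * (3 ^ n * (2 ^ (e + 1) * b)) := by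
      rw [pow_succ (3 : ℤ) n]; ring
    unfold tm
    rw [e1]
    by_cases h : (3 : ℤ) ∣ 2 ^ (e + 1) * a - d
    · rw [if_pos h, if_pos (dvd_add h (Dvd.intro _ rfl)), Int.add_mul_ediv_left _ _ (by norm_num), ih]
    · rw [if_neg h, if_neg]
      intro h2
      exact h ((Int.dvd_add_left (Dvd.intro _ rfl)).1 h2)

/-! ### the means -/

theorem sum_thirds (F : ℤ → ℝ) (N : ℕ) :
    ∑ r ∈ range (3 * N), (open Classical in if (3 : ℤ) ∣ (r : ℤ) then F ((r : ℤ) / 3) else 0) = ∑ s ∈ range N, F s := by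
  classical
  induction N with
  | zero => simp
  | succ N ih =>
    rw [show 3 * (N + 1) = 3 * N + 1 + 1 + 1 by ring, sum_range_succ, sum_range_succ, sum_range_succ, ih, sum_range_succ]
    rw [if_pos (by push_cast; exact Dvd.intro _ rfl), if_neg (by omega), if_neg (by omega)]
    push_cast
    simp

theorem sum_lift (d : ℤ) (F : ℤ → ℝ) (m c : ℕ) (hc : Nat.Coprime c 3) (hF : ∀ x k : ℤ, F (x + 3 ^ m * k) = F x) (a : ℤ) :
    ∑ j ∈ range (3 ^ (m + 1)), (open Classical in if (3 : ℤ) ∣ (c : ℤ) * (a + (j : ℤ)) - d then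
      F (((c : ℤ) * (a + (j : ℤ)) - d) / 3) else 0) = ∑ s ∈ range (3 ^ m), F s := by
  classical
  rw [← sum_thirds, ← pow_succ']
  rw [← sum_affine (3 ^ (m + 1)) (by positivity) (c := c) (Nat.Coprime.pow_right _ hc) ((c : ℤ) * a - d)
    (fun y => if (3 : ℤ) ∣ y then F (y / 3) else 0)]
  · refine sum_congr rfl fun j _ => ?_
    have e1 : (c : ℤ) * (j : ℤ) + ((c : ℤ) * a - d) = (c : ℤ) * (a + (j : ℤ)) - d := by ring
    simp only [e1]
  · intro x k
    have e1 : x + ((3 ^ (m + 1) : ℕ) : ℤ) * k = x + 3 * (3 ^ m * k) := by push_cast; rw [pow_succ]; ring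
    simp only [e1]
    by_cases h : (3 : ℤ) ∣ x
    · rw [if_pos h, if_pos (dvd_add h (Dvd.intro _ rfl)), Int.add_mul_ediv_left _ _ (by norm_num), hF]
    · rw [if_neg h, if_neg]
      intro h2
      exact h ((Int.dvd_add_left (Dvd.intro _ rfl)).1 h2)

theorem cop (e : ℕ) : Nat.Coprime (2 ^ (e + 1)) 3 := Nat.Coprime.pow_left _ (by norm_num)

/-- interchange of a finite sum and the series -/
theorem sum_tm (d : ℤ) (n : ℕ) (s : Finset ℕ) (g : ℕ → ℤ) :
    ∑ j ∈ s, Dn d (n + 1) (g j) = ∑' e : ℕ, ∑ j ∈ s, tm d n (g j) e := by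
  simp only [Dn_succ]
  rw [Summable.tsum_finsetSum fun j _ => tm_summable d n (g j)]

theorem mean_zero (d : ℤ) (m : ℕ) : ∀ a : ℤ, ∑ j ∈ range (3 ^ m), Dn d m (a + j) = 3 ^ m := by
  classical
  induction m with
  | zero => intro a; simp [Dn_zero]
  | succ m ih =>
    intro a
    rw [sum_tm]
    have h1 : ∀ e, ∑ j ∈ range (3 ^ (m + 1)), tm d m (a + (j : ℤ)) e = 3 ^ (m + 1) * (1 / 2 : ℝ) ^ (e + 1) := by
      intro e
      have h2 := sum_lift d (fun x => 3 * (1 / 2 : ℝ) ^ (e + 1) * Dn d m x) m (2 ^ (e + 1)) (cop e)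
        (fun x k => by simp only [Dn_period]) a
      have h3 : ∑ s ∈ range (3 ^ m), 3 * (1 / 2 : ℝ) ^ (e + 1) * Dn d m (s : ℤ) = 3 ^ (m + 1) * (1 / 2 : ℝ) ^ (e + 1) := by
        rw [← mul_sum]
        have h4 := ih 0
        simp only [zero_add] at h4
        rw [h4, pow_succ]; ring
      rw [h3] at h2
      rw [← h2]
      refine sum_congr rfl fun j _ => ?_
      unfold tm
      push_cast
      rfl
    rw [tsum_congr h1]
    exact (geo _).tsum_eq

theorem mean_all (d : ℤ) (m n : ℕ) : ∀ a : ℤ, ∑ j ∈ range (3 ^ m), Dn d (n + m) (a + 3 ^ n * j) = 3 ^ m * Dn d n a := by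
  classical
  induction n with
  | zero =>
    intro a
    rw [Dn_zero, mul_one]
    have := mean_zero d m a
    simpa using this
  | succ n ih =>
    intro a
    have hn : n + 1 + m = (n + m) + 1 := by ring
    rw [hn, sum_tm, Dn_succ, ← tsum_mul_left]
    refine tsum_congr fun e => ?_
    have key : ∀ j : ℕ, (2 : ℤ) ^ (e + 1) * (a + 3 ^ (n + 1) * (j : ℤ)) - d =
        (2 ^ (e + 1) * a - d) + 3 * (3 ^ n * (((2 ^ (e + 1) : ℕ) : ℤ) * (j : ℤ))) := by
      intro j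
      push_cast
      rw [pow_succ (3 : ℤ) n]; ring
    by_cases h : (3 : ℤ) ∣ 2 ^ (e + 1) * a - d
    · have h1 : ∀ j ∈ range (3 ^ m), tm d (n + m) (a + 3 ^ (n + 1) * (j : ℤ)) e =
          3 * (1 / 2 : ℝ) ^ (e + 1) * Dn d (n + m) ((2 ^ (e + 1) * a - d) / 3 +
            3 ^ n * (((2 ^ (e + 1) : ℕ) : ℤ) * (j : ℤ) + 0)) := by
        intro j _
        unfold tm
        rw [key j, if_pos (dvd_add h (Dvd.intro _ rfl)), Int.add_mul_ediv_left _ _ (by norm_num), add_zero]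
      rw [sum_congr rfl h1, ← mul_sum]
      have h2 := sum_affine (3 ^ m) (by positivity) (c := 2 ^ (e + 1)) (Nat.Coprime.pow_right _ (cop e)) 0
        (fun x => Dn d (n + m) ((2 ^ (e + 1) * a - d) / 3 + 3 ^ n * x)) (fun x k => by
          have e1 : (2 ^ (e + 1) * a - d) / 3 + 3 ^ n * (x + ((3 ^ m : ℕ) : ℤ) * k) =
              ((2 ^ (e + 1) * a - d) / 3 + 3 ^ n * x) + 3 ^ (n + m) * k := by
            push_cast
            rw [pow_add]; ring
          simp only [e1, Dn_period])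
      rw [h2, ih]
      unfold tm
      rw [if_pos h]
      ring
    · have h1 : ∀ j ∈ range (3 ^ m), tm d (n + m) (a + 3 ^ (n + 1) * (j : ℤ)) e = 0 := by
        intro j _
        unfold tm
        rw [key j, if_neg]
        intro h2
        exact h ((Int.dvd_add_left (Dvd.intro _ rfl)).1 h2)
      rw [sum_congr rfl h1, sum_const_zero]
      unfold tm
      rw [if_neg h, mul_zero]

theorem dlm : S_Dlm := by
  intro d _ n
  refine ⟨fun cap a => ⟨Dc_nonneg d cap n a, (trunc d n cap a).1, (Dn_bd d n a).2, (trunc d n cap a).2⟩,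
    Dn_period d n, fun m a => mean_all d m n a⟩

end Pool.Agent.Q211.PD
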