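import Pool.Agent.Q74.PD.Stm

/-! # Project PD: harmonic sums over residue classes, job Hrm -/

set_option autoImplicit false

namespace Pool.Agent.Q211.PD

open Finset Filter Topology
open Pool.Agent.H499R2.ND Pool.Agent.H320R2.PD Pool.Agent.Q74.PD

theorem log_step_up {y q : ℝ} (hq : 0 < q) (hy : q < y) : 1 / y ≤ (Real.log y - Real.log (y - q)) / q := by
  have hy0 : 0 < y := hq.trans hy
  have h1 : Real.log ((y - q) / y) ≤ (y - q) / y - 1 := Real.log_le_sub_one_of_pos (div_pos (by linarith) hy0)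
  rw [Real.log_div (by linarith) hy0.ne'] at h1
  have h2 : (y - q) / y - 1 = -(q / y) := by field_simp; ring
  rw [h2] at h1
  rw [le_div_iff₀ hq]
  have h3 : 1 / y * q = q / y := by ring
  rw [h3]
  linarith

theorem log_step_lo {y q : ℝ} (hq : 0 < q) (hy : 0 < y) : (Real.log (y + q) - Real.log y) / q ≤ 1 / y := by
  have h1 : Real.log ((y + q) / y) ≤ (y + q) / y - 1 := Real.log_le_sub_one_of_pos (div_pos (by linarith) hy)
  rw [Real.log_div (by linarith) hy.ne'] at h1
  have h2 : (y + q) / y - 1 = q / y := by field_simp; ring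
  rw [h2] at h1
  rw [div_le_iff₀ hq]
  have h3 : 1 / y * q = q / y := by ring
  rw [h3]
  linarith

theorem range_up {x q : ℝ} (hq : 0 < q) (hx : 0 < x) (m : ℕ) :
    ∑ j ∈ range (m + 1), 1 / (x + q * j) ≤ 1 / x + (Real.log (x + q * m) - Real.log x) / q := by
  induction m with
  | zero => simp
  | succ m ih =>
    rw [sum_range_succ]
    have h1 := log_step_up (y := x + q * ((m + 1 : ℕ) : ℝ)) hq (by
      push_cast
      have : 0 ≤ q * (m : ℝ) := by positivity
      nlinarith)
    have h2 : x + q * ((m + 1 : ℕ) : ℝ) - q = x + q * m := by push_cast; ring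
    rw [h2] at h1
    have h3 : (Real.log (x + q * ((m + 1 : ℕ) : ℝ)) - Real.log x) / q =
        (Real.log (x + q * ((m + 1 : ℕ) : ℝ)) - Real.log (x + q * m)) / q +
        (Real.log (x + q * m) - Real.log x) / q := by ring
    rw [h3]
    linarith

theorem range_lo {x q : ℝ} (hq : 0 < q) (hx : 0 < x) (m : ℕ) :
    (Real.log (x + q * m) - Real.log x) / q ≤ ∑ j ∈ range m, 1 / (x + q * j) := by
  induction m with
  | zero => simp
  | succ m ih =>
    rw [sum_range_succ]
    have h1 := log_step_lo (y := x + q * (m : ℝ)) hq (by positivity)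
    have h2 : x + q * (m : ℝ) + q = x + q * ((m + 1 : ℕ) : ℝ) := by push_cast; ring
    rw [h2] at h1
    have h3 : (Real.log (x + q * ((m + 1 : ℕ) : ℝ)) - Real.log x) / q =
        (Real.log (x + q * ((m + 1 : ℕ) : ℝ)) - Real.log (x + q * m)) / q +
        (Real.log (x + q * m) - Real.log x) / q := by ring
    rw [h3]
    linarith

/-- the elements of a class modulo `q` in an interval of integers -/
theorem class_image {q : ℤ} (hq : 0 < q) (c A B : ℤ) : ∃ (x : ℤ) (m : ℕ), A ≤ x ∧ x < A + q ∧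
    B ≤ x + q * m ∧ (1 ≤ m → x + q * (m - 1) < B) ∧
    (Ico A B).filter (fun y => q ∣ y - c) = (range m).image (fun j : ℕ => x + q * j) := by
  have h0 := Int.emod_nonneg (c - A) hq.ne'
  have h1 := Int.emod_lt_of_pos (c - A) hq
  obtain ⟨x, hx⟩ : ∃ x, x = A + (c - A) % q := ⟨_, rfl⟩
  have hxc : q ∣ x - c := by
    have h2 := Int.emod_add_mul_ediv (c - A) q
    exact ⟨-((c - A) / q), by rw [hx]; linarith⟩
  obtain ⟨M, hM⟩ : ∃ M, M = (B - x + (q - 1)) / q := ⟨_, rfl⟩
  have hMi : ∀ j : ℤ, j < M ↔ x + q * j < B := by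
    intro j
    rw [hM, Int.lt_iff_add_one_le, Int.le_ediv_iff_mul_le hq]
    constructor
    · intro h
      have : (j + 1) * q = q * j + q := by ring
      rw [this] at h
      omega
    · intro h
      have : (j + 1) * q = q * j + q := by ring
      rw [this]
      omega
  refine ⟨x, M.toNat, by omega, by omega, ?_, ?_, ?_⟩
  · by_contra hc
    push Not at hc
    have h3 := (hMi (M.toNat : ℤ)).2 hc
    omega
  · intro h
    have h3 : ((M.toNat : ℤ) - 1) < M := by omega
    exact (hMi _).1 h3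
  · ext y
    simp only [mem_filter, mem_Ico, mem_image, mem_range]
    constructor
    · rintro ⟨⟨h2, h3⟩, h4⟩
      have h5 : q ∣ y - x := by
        have := dvd_sub h4 hxc
        rwa [show y - c - (x - c) = y - x by ring] at this
      obtain ⟨t, ht⟩ := h5
      have hxy : x ≤ y := by
        by_contra hlt
        push Not at hlt
        have h6 : y - x < 0 := by omega
        rw [ht] at h6
        have h7 : t ≤ -1 := by
          by_contra hh
          push Not at hh
          have : 0 ≤ q * t := mul_nonneg hq.le (by omega)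
          omega
        have h8 : q * t ≤ -q := by nlinarith
        omega
      have ht0 : 0 ≤ t := by
        by_contra hh
        push Not at hh
        have : q * t < 0 := by nlinarith
        omega
      refine ⟨t.toNat, ?_, ?_⟩
      · have h9 := (hMi t).2 (by rw [← ht]; omega)
        omega
      · rw [Int.toNat_of_nonneg ht0, ← ht]; ring
    · rintro ⟨j, hj, rfl⟩
      have h2 : 0 ≤ q * (j : ℤ) := mul_nonneg hq.le (Int.natCast_nonneg j)
      refine ⟨⟨by omega, (hMi j).1 (by omega)⟩, ?_⟩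
      obtain ⟨t, ht⟩ := hxc
      exact ⟨t + j, by rw [mul_add, ← ht]; ring⟩

/-- the harmonic mass of a class modulo `q` in a window -/
theorem class_harm {q : ℤ} (hq : 0 < q) (c : ℤ) {a b : ℝ} (ha : 0 < a) (hab : a ≤ b) :
    |∑ x ∈ (Ico ⌈a⌉ ⌈b⌉).filter (fun y => q ∣ y - c), 1 / (x : ℝ) - Real.log (b / a) / q| ≤ 1 / a := by
  obtain ⟨x, m, hx1, hx2, hB, hm, himg⟩ := class_image hq c ⌈a⌉ ⌈b⌉
  have hqr : (0 : ℝ) < q := by exact_mod_cast hq
  have hxa : a ≤ x := (Int.le_ceil a).trans (by exact_mod_cast hx1)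
  have hx0 : (0 : ℝ) < x := ha.trans_le hxa
  have hb0 : 0 < b := ha.trans_le hab
  have hsum : ∑ x ∈ (Ico ⌈a⌉ ⌈b⌉).filter (fun y => q ∣ y - c), 1 / (x : ℝ) =
      ∑ j ∈ range m, 1 / ((x : ℝ) + q * j) := by
    rw [himg, sum_image]
    · refine sum_congr rfl fun j _ => ?_
      push_cast
      rfl
    · intro j _ j' _ h
      have h1 : q * (j : ℤ) = q * (j' : ℤ) := by
        simp only at h
        omega
      exact_mod_cast mul_left_cancel₀ hq.ne' h1
  rw [hsum, Real.log_div hb0.ne' ha.ne']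
  have hxq : (x : ℝ) < a + q := by
    have h1 : x ≤ ⌈a⌉ + q - 1 := by omega
    have h2 : (x : ℝ) ≤ (⌈a⌉ : ℝ) + q - 1 := by exact_mod_cast h1
    have h3 := Int.ceil_lt_add_one a
    linarith
  rw [abs_le]
  constructor
  · have h1 := range_lo hqr hx0 m
    have h2 : b ≤ x + q * m := by
      have h3 : (⌈b⌉ : ℝ) ≤ (x : ℝ) + q * m := by exact_mod_cast hB
      exact (Int.le_ceil b).trans h3
    have h3 : Real.log b ≤ Real.log (x + q * m) := Real.log_le_log hb0 h2
    have h4 : Real.log x ≤ Real.log (a + q) := Real.log_le_log hx0 hxq.le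
    have h5 := log_step_lo (y := a) hqr ha
    have h6 : (Real.log b - Real.log a) / q ≤ (Real.log (x + q * m) - Real.log x) / q +
        (Real.log (a + q) - Real.log a) / q := by
      rw [← add_div]
      exact div_le_div_of_nonneg_right (by linarith) hqr.le
    linarith
  · rcases Nat.eq_zero_or_pos m with h0 | h0
    · rw [h0, range_zero, sum_empty]
      have h1 : Real.log a ≤ Real.log b := Real.log_le_log ha hab
      have h2 : 0 ≤ (Real.log b - Real.log a) / q := div_nonneg (by linarith) hqr.le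
      have h3 : 0 < 1 / a := by positivity
      linarith
    · obtain ⟨n, rfl⟩ : ∃ n, m = n + 1 := ⟨m - 1, by omega⟩
      have h1 := range_up hqr hx0 n
      have h2 : (x : ℝ) + q * n ≤ b := by
        have h3 := hm (by omega)
        have h4 : x + q * n ≤ ⌈b⌉ - 1 := by
          have e : x + q * (((n + 1 : ℕ) : ℤ) - 1) = x + q * n := by push_cast; ring
          rw [e] at h3
          omega
        have h5 : (x : ℝ) + q * n ≤ (⌈b⌉ : ℝ) - 1 := by exact_mod_cast h4
        have h6 := Int.ceil_lt_add_one b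
        linarith
      have h3 : Real.log (x + q * n) ≤ Real.log b := Real.log_le_log (by positivity) h2
      have h4 : Real.log a ≤ Real.log x := Real.log_le_log ha hxa
      have h5 : (Real.log (x + q * n) - Real.log x) / q ≤ (Real.log b - Real.log a) / q :=
        div_le_div_of_nonneg_right (by linarith) hqr.le
      have h6 : 1 / (x : ℝ) ≤ 1 / a := one_div_le_one_div_of_le ha hxa
      linarith

theorem win {A : ℝ} (hA : 1 / 2 ≤ A) : 0 < Ul A ∧ Ul A ≤ Ur A ∧ Real.log (Ur A / Ul A) = len A ∧ 2 * A ≤ Ul A := by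
  have h2 : 1 ≤ 2 * A := by linarith
  have h0 : 0 < 2 * A := by linarith
  refine ⟨Real.rpow_pos_of_pos h0 _, Real.rpow_le_rpow_of_exponent_le h2 (by norm_num), ?_, ?_⟩
  · unfold Ur Ul len
    rw [Real.log_div (Real.rpow_pos_of_pos h0 _).ne' (Real.rpow_pos_of_pos h0 _).ne', Real.log_rpow h0,
      Real.log_rpow h0]
    ring
  · unfold Ul
    calc 2 * A = (2 * A) ^ (1 : ℝ) := (Real.rpow_one _).symm
      _ ≤ _ := Real.rpow_le_rpow_of_exponent_le h2 (by norm_num)

theorem cls_univ (a b : ℝ) : cls Set.univ a b 0 1 0 = (Ico ⌈a⌉ ⌈b⌉).filter (fun y => (2 : ℤ) ∣ y - 1) := by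
  ext x
  rw [mem_cls, mem_filter, mem_Ico, Int.ceil_le, Int.lt_ceil]
  constructor
  · rintro ⟨h1, h2, -, -⟩
    refine ⟨h1, ?_⟩
    obtain ⟨t, ht⟩ := h2
    exact ⟨t, by omega⟩
  · rintro ⟨h1, h2⟩
    refine ⟨h1, ?_, trivial, ?_⟩
    · obtain ⟨t, ht⟩ := h2
      exact ⟨t, by omega⟩
    · rw [pow_zero]; exact one_dvd _

theorem hrm : S_Hrm := by
  intro ε hε
  refine ⟨max (1 / 2) (1 / ε), fun A hA => ?_⟩
  obtain ⟨h1, h2, h3, h4⟩ := win ((le_max_left _ _).trans hA)
  have h5 : 1 / ε ≤ A := (le_max_right _ _).trans hA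
  have hA0 : 0 < A := (by positivity : 0 < 1 / ε).trans_le h5
  have h6 := class_harm (q := 2) (by norm_num) 1 h1 h2
  rw [h3] at h6
  unfold hs
  rw [cls_univ]
  push_cast at h6
  refine h6.trans ?_
  rw [div_le_iff₀ h1]
  have h7 : ε * (1 / ε) = 1 := by field_simp
  have h8 : ε * (1 / ε) ≤ ε * Ul A := mul_le_mul_of_nonneg_left (by linarith) hε.le
  linarith

end Pool.Agent.Q211.PD
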