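import Pool.Agent.Q204.PDP.Par
import Pool.Agent.Q211.PD.Hrm

/-! # Project PD: job Lat (few integers of the window stay above `2A` for a long time) -/

set_option autoImplicit false

namespace Pool.Agent.Q211.PD

open Finset Filter Topology
open Pool.Agent.H499R2.ND Pool.Agent.H320R2.PD Pool.Agent.Q74.PD
open Pool.Agent.Q204.PDP (oc oc_emod oc_le sum_oc iter_affine)

/-- decay rate for the proportion `21/40` of odd terms -/
noncomputable def rho2 : ℝ := 20 / 19 / (21 / 19) ^ (21 / 40 : ℝ)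

theorem rho2_pos : 0 < rho2 := by unfold rho2; positivity

theorem rho2_lt : rho2 < 1 := by
  unfold rho2
  rw [div_lt_one (by positivity)]
  have h : (20 / 19 : ℝ) = ((20 / 19) ^ (40 : ℝ)) ^ (1 / 40 : ℝ) := by
    rw [← Real.rpow_mul (by norm_num)]; norm_num
  have h2 : (21 / 19 : ℝ) ^ (21 / 40 : ℝ) = ((21 / 19) ^ (21 : ℝ)) ^ (1 / 40 : ℝ) := by
    rw [← Real.rpow_mul (by norm_num)]; norm_num
  rw [h, h2]
  apply Real.rpow_lt_rpow (by positivity) _ (by norm_num)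
  have e1 : (20 / 19 : ℝ) ^ (40 : ℝ) = (20 / 19) ^ (40 : ℕ) := by rw [← Real.rpow_natCast]; norm_num
  have e2 : (21 / 19 : ℝ) ^ (21 : ℝ) = (21 / 19) ^ (21 : ℕ) := by rw [← Real.rpow_natCast]; norm_num
  rw [e1, e2]
  norm_num

/-- CHERNOFF: residues modulo `2^l` with at least `21 l / 40` odd terms -/
theorem card_many {d : ℤ} (hd : Odd d) (l : ℕ) :
    (((range (2 ^ l)).filter (fun r : ℕ => 21 * l ≤ 40 * oc d l (r : ℤ))).card : ℝ) ≤ 2 ^ l * rho2 ^ l := by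
  have hz : (0 : ℝ) < (21 / 19 : ℝ) ^ (21 / 40 : ℝ) := by positivity
  have h1 : (((range (2 ^ l)).filter (fun r : ℕ => 21 * l ≤ 40 * oc d l (r : ℤ))).card : ℝ) *
      ((21 / 19 : ℝ) ^ (21 / 40 : ℝ)) ^ l ≤ ∑ r ∈ range (2 ^ l), (21 / 19 : ℝ) ^ oc d l (r : ℤ) := by
    rw [← nsmul_eq_mul, ← sum_const]
    refine (sum_le_sum fun r hr => ?_).trans (sum_le_sum_of_subset_of_nonneg (filter_subset _ _)
      fun _ _ _ => by positivity)
    rw [mem_filter] at hr
    rw [← Real.rpow_natCast, ← Real.rpow_natCast, ← Real.rpow_mul (by norm_num)]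
    apply Real.rpow_le_rpow_of_exponent_le (by norm_num)
    have h2 : (21 * l : ℝ) ≤ 40 * (oc d l (r : ℤ) : ℝ) := by exact_mod_cast hr.2
    linarith
  rw [sum_oc hd] at h1
  have h2 : (2 : ℝ) ^ l * rho2 ^ l * ((21 / 19 : ℝ) ^ (21 / 40 : ℝ)) ^ l = (1 + 21 / 19) ^ l := by
    rw [← mul_pow, ← mul_pow]
    congr 1
    unfold rho2
    field_simp
    norm_num
  rw [← h2] at h1
  exact le_of_mul_le_mul_right h1 (by positivity)

/-- harmonic mass of the integers of a window with many odd terms -/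
theorem mass_many {d : ℤ} (hd : Odd d) (l : ℕ) {a b : ℝ} (ha : 0 < a) (hab : a ≤ b) :
    ∑ x ∈ (Ico ⌈a⌉ ⌈b⌉).filter (fun x => 21 * l ≤ 40 * oc d l x), 1 / (x : ℝ) ≤
      2 ^ l * rho2 ^ l * (Real.log (b / a) / 2 ^ l + 1 / a) := by
  classical
  have hq : (0 : ℤ) < 2 ^ l := by positivity
  have hmap : ∀ x ∈ (Ico ⌈a⌉ ⌈b⌉).filter (fun x => 21 * l ≤ 40 * oc d l x),
      (x % 2 ^ l).toNat ∈ (range (2 ^ l)).filter (fun r : ℕ => 21 * l ≤ 40 * oc d l (r : ℤ)) := by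
    intro x hx
    rw [mem_filter] at hx
    have h4 := Int.emod_nonneg x hq.ne'
    have h5 := Int.emod_lt_of_pos x hq
    rw [mem_filter, mem_range]
    refine ⟨?_, ?_⟩
    · have h6 : ((x % 2 ^ l).toNat : ℤ) < ((2 ^ l : ℕ) : ℤ) := by
        rw [Int.toNat_of_nonneg h4]; push_cast; exact h5
      exact_mod_cast h6
    · rw [Int.toNat_of_nonneg h4, oc_emod hd]; exact hx.2
  rw [← sum_fiberwise_of_maps_to hmap]
  have hcl : ∀ r ∈ (range (2 ^ l)).filter (fun r : ℕ => 21 * l ≤ 40 * oc d l (r : ℤ)),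
      ∑ x ∈ ((Ico ⌈a⌉ ⌈b⌉).filter (fun x => 21 * l ≤ 40 * oc d l x)).filter
        (fun x => (x % 2 ^ l).toNat = r), 1 / (x : ℝ) ≤ Real.log (b / a) / 2 ^ l + 1 / a := by
    intro r _
    have h1 := (abs_le.1 (class_harm hq (r : ℤ) ha hab)).2
    push_cast at h1
    refine le_trans (sum_le_sum_of_subset_of_nonneg (t := (Ico ⌈a⌉ ⌈b⌉).filter
      (fun y => (2 : ℤ) ^ l ∣ y - r)) ?_ ?_) (by linarith)
    · intro x hx
      rw [mem_filter, mem_filter] at hx
      rw [mem_filter]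
      refine ⟨hx.1.1, ?_⟩
      have h4 := Int.emod_nonneg x hq.ne'
      have h6 : (r : ℤ) = x % 2 ^ l := by
        rw [← hx.2, Int.toNat_of_nonneg h4]
      rw [h6]
      exact ⟨x / 2 ^ l, by have := Int.emod_add_mul_ediv x (2 ^ l); linarith⟩
    · intro x hx _
      rw [mem_filter, mem_Ico] at hx
      have h2 : a ≤ x := (Int.le_ceil a).trans (by exact_mod_cast hx.1.1)
      have h3 : (0 : ℝ) < x := ha.trans_le h2
      positivity
  refine (sum_le_sum hcl).trans ?_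
  rw [sum_const, nsmul_eq_mul]
  refine mul_le_mul_of_nonneg_right (card_many hd l) ?_
  have h1 : 0 ≤ Real.log (b / a) := Real.log_nonneg (by rw [le_div_iff₀ ha]; linarith)
  positivity

theorem kappa : (9 : ℝ) / 80 ≤ Real.log 2 - 21 / 40 * Real.log 3 := by
  have h1 : Real.exp 9 ≤ 2 ^ 80 / 3 ^ 42 := by
    have h2 : Real.exp 9 = Real.exp 1 ^ 9 := by
      rw [← Real.exp_nat_mul]; norm_num
    rw [h2]
    have h3 : Real.exp 1 ^ 9 ≤ (2.7182818286 : ℝ) ^ 9 :=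
      pow_le_pow_left₀ (Real.exp_pos 1).le Real.exp_one_lt_d9.le 9
    refine h3.trans ?_
    norm_num
  have h4 : (9 : ℝ) ≤ Real.log (2 ^ 80 / 3 ^ 42) := by
    rw [Real.le_log_iff_exp_le (by positivity)]
    exact h1
  rw [Real.log_div (by positivity) (by positivity), Real.log_pow, Real.log_pow] at h4
  push_cast at h4
  linarith

/-- an integer of the window which stays above `2A` has many odd terms -/
theorem many_odd {d : ℤ} (hd : Odd d) {A : ℝ} (hA : Real.exp 2000 ≤ A) (hdA : |(d : ℝ)| ≤ A ^ (1 / 2 : ℝ)) {x : ℤ}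
    (hx0 : 0 < x) (hxU : (x : ℝ) < Ur A) (i : ℕ) (hi : i = ⌊9 / 10 * Real.log A⌋₊)
    (hx : 2 * A < (((Td d)^[i] x : ℤ) : ℝ)) : 21 * i ≤ 40 * oc d i x := by
  have hA0 : 0 < A := (Real.exp_pos _).trans_le hA
  have hlogA : 2000 ≤ Real.log A := by
    rw [Real.le_log_iff_exp_le hA0]; exact hA
  have hi1 : (i : ℝ) ≤ 9 / 10 * Real.log A := by
    rw [hi]; exact Nat.floor_le (by linarith)
  have hi2 : 9 / 10 * Real.log A < i + 1 := by
    rw [hi]; exact Nat.lt_floor_add_one _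
  by_contra hc
  push Not at hc
  have haff := iter_affine hd i x
  have h1 : (2 : ℝ) ^ i * (((Td d)^[i] x : ℤ) : ℝ) ≤ 3 ^ oc d i x * x + |(d : ℝ)| * 3 ^ i := by
    have h2 := (abs_le.1 haff).2
    have h3 : (2 : ℤ) ^ i * (Td d)^[i] x ≤ 3 ^ oc d i x * x + |d| * 3 ^ i := by linarith
    exact_mod_cast h3
  have h32 : (3 : ℝ) ^ i ≤ 2 ^ i * Real.exp (9 / 20 * Real.log A) := by
    have e1 : (3 / 2 : ℝ) ≤ Real.exp (1 / 2) := by
      have := Real.add_one_le_exp (1 / 2 : ℝ); linarith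
    have e2 : (3 / 2 : ℝ) ^ i ≤ Real.exp (1 / 2) ^ i := pow_le_pow_left₀ (by norm_num) e1 i
    rw [← Real.exp_nat_mul] at e2
    have e3 : Real.exp ((i : ℝ) * (1 / 2)) ≤ Real.exp (9 / 20 * Real.log A) := Real.exp_le_exp.2 (by linarith)
    have e4 : (3 : ℝ) ^ i = 2 ^ i * (3 / 2) ^ i := by rw [← mul_pow]; norm_num
    rw [e4]
    exact mul_le_mul_of_nonneg_left (e2.trans e3) (by positivity)
  have hd3 : |(d : ℝ)| * 3 ^ i ≤ 2 ^ i * A := by
    have e1 : |(d : ℝ)| * Real.exp (9 / 20 * Real.log A) ≤ A := by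
      have e2 : Real.exp (9 / 20 * Real.log A) ≤ A ^ (1 / 2 : ℝ) := by
        rw [Real.rpow_def_of_pos hA0]
        exact Real.exp_le_exp.2 (by linarith)
      calc |(d : ℝ)| * Real.exp (9 / 20 * Real.log A) ≤ A ^ (1 / 2 : ℝ) * A ^ (1 / 2 : ℝ) :=
            mul_le_mul hdA e2 (Real.exp_pos _).le (by positivity)
        _ = A := by rw [← Real.rpow_add hA0]; norm_num
    calc |(d : ℝ)| * 3 ^ i ≤ |(d : ℝ)| * (2 ^ i * Real.exp (9 / 20 * Real.log A)) :=
          mul_le_mul_of_nonneg_left h32 (abs_nonneg _)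
      _ = 2 ^ i * (|(d : ℝ)| * Real.exp (9 / 20 * Real.log A)) := by ring
      _ ≤ _ := mul_le_mul_of_nonneg_left e1 (by positivity)
  have hxr : (0 : ℝ) < x := by exact_mod_cast hx0
  have h2 : (2 : ℝ) ^ i * A < 3 ^ oc d i x * Ur A := by
    have e1 : (2 : ℝ) ^ i * (2 * A) < 2 ^ i * (((Td d)^[i] x : ℤ) : ℝ) :=
      mul_lt_mul_of_pos_left hx (by positivity)
    have e2 : (3 : ℝ) ^ oc d i x * x ≤ 3 ^ oc d i x * Ur A := mul_le_mul_of_nonneg_left hxU.le (by positivity)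
    nlinarith
  have h3 : (i : ℝ) * Real.log 2 + Real.log A < oc d i x * Real.log 3 + 11 / 10 * (Real.log 2 + Real.log A) := by
    have e1 := Real.log_lt_log (by positivity) h2
    have hU : Real.log (Ur A) = 11 / 10 * (Real.log 2 + Real.log A) := by
      unfold Ur
      rw [Real.log_rpow (by positivity), Real.log_mul (by norm_num) hA0.ne']
    have hUp : 0 < Ur A := Real.rpow_pos_of_pos (by positivity) _
    rw [Real.log_mul (by positivity) hA0.ne', Real.log_mul (by positivity) hUp.ne', Real.log_pow, Real.log_pow, hU] at e1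
    exact e1
  have h4 : (40 : ℝ) * oc d i x ≤ 21 * i := by exact_mod_cast hc.le
  have hl3 : 0 < Real.log 3 := Real.log_pos (by norm_num)
  have h5 : (oc d i x : ℝ) * Real.log 3 ≤ 21 / 40 * i * Real.log 3 :=
    mul_le_mul_of_nonneg_right (by linarith) hl3.le
  have h6 := kappa
  have h7 : (i : ℝ) * (9 / 80) ≤ i * (Real.log 2 - 21 / 40 * Real.log 3) :=
    mul_le_mul_of_nonneg_left h6 (Nat.cast_nonneg i)
  have hl2 : Real.log 2 < 0.7 := by have := Real.log_two_lt_d9; linarith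
  linarith

theorem lat : S_Lat := by
  intro d hd
  obtain ⟨r, hr⟩ : ∃ r, r = -Real.log rho2 := ⟨_, rfl⟩
  have hr0 : 0 < r := by rw [hr]; have := Real.log_neg rho2_pos rho2_lt; linarith
  have hrho : rho2 = Real.exp (-r) := by rw [hr, neg_neg, Real.exp_log rho2_pos]
  refine ⟨2 / 5 * r, ?_⟩
  -- the constant
  obtain ⟨K, hK⟩ : ∃ K, K = Real.exp r * (2 ^ (r / 4) / (20 * (r / 4)) + 1) := ⟨_, rfl⟩
  have hev1 : ∀ᶠ A : ℝ in atTop, K ≤ A ^ (r / 4) :=
    (tendsto_rpow_atTop (by positivity : 0 < r / 4)).eventually_ge_atTop K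
  have hev2 : ∀ᶠ A : ℝ in atTop, |(d : ℝ)| ≤ A ^ (1 / 2 : ℝ) :=
    (tendsto_rpow_atTop (by norm_num : (0 : ℝ) < 1 / 2)).eventually_ge_atTop _
  obtain ⟨A₀, hA₀⟩ := Filter.eventually_atTop.1 ((hev1.and hev2).and (eventually_ge_atTop (Real.exp 2000)))
  refine ⟨A₀, by positivity, fun A hA => ?_⟩
  obtain ⟨⟨h1, h2⟩, h3⟩ := hA₀ A hA
  have hA0 : 0 < A := (Real.exp_pos _).trans_le h3
  have hA1 : 1 ≤ A := (Real.one_le_exp (by norm_num)).trans h3
  have hlogA : 2000 ≤ Real.log A := by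
    rw [Real.le_log_iff_exp_le hA0]; exact h3
  obtain ⟨w1, w2, w3, w4⟩ := win (A := A) (by linarith)
  obtain ⟨i, hi⟩ : ∃ i, i = ⌊9 / 10 * Real.log A⌋₊ := ⟨_, rfl⟩
  have hi1 : (i : ℝ) ≤ 9 / 10 * Real.log A := by
    rw [hi]; exact Nat.floor_le (by linarith)
  have hi2 : 9 / 10 * Real.log A < i + 1 := by
    rw [hi]; exact Nat.lt_floor_add_one _
  have hsub : hs {x | ∀ i : ℕ, (i : ℝ) ≤ 9 / 10 * Real.log A → 2 * A < (((Td d)^[i] x : ℤ) : ℝ)} (Ul A) (Ur A) ≤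
      ∑ x ∈ (Ico ⌈Ul A⌉ ⌈Ur A⌉).filter (fun x => 21 * i ≤ 40 * oc d i x), 1 / (x : ℝ) := by
    unfold hs
    refine sum_le_sum_of_subset_of_nonneg ?_ ?_
    · intro x hx
      rw [mem_cls] at hx
      obtain ⟨⟨a1, a2⟩, -, a3, -⟩ := hx
      rw [mem_filter, mem_Ico, Int.ceil_le, Int.lt_ceil]
      refine ⟨⟨a1, a2⟩, ?_⟩
      have hx0 : 0 < x := by
        have : (0 : ℝ) < x := w1.trans_le a1
        exact_mod_cast this
      exact many_odd hd h3 h2 hx0 a2 i hi (a3 i hi1)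
    · intro x hx _
      rw [mem_filter, mem_Ico, Int.ceil_le] at hx
      have : (0 : ℝ) < x := w1.trans_le hx.1.1
      positivity
  refine hsub.trans ((mass_many hd i w1 w2).trans ?_)
  rw [w3]
  have h2i : (2 : ℝ) ^ i ≤ Ul A := by
    have e0 : (2 : ℝ) ≤ Real.exp 1 := by have := Real.add_one_le_exp (1 : ℝ); linarith
    have e1 : (2 : ℝ) ^ i ≤ Real.exp 1 ^ i := pow_le_pow_left₀ (by norm_num) e0 i
    rw [← Real.exp_nat_mul, mul_one] at e1
    have e2 : Real.exp (i : ℝ) ≤ Real.exp (Real.log A) := Real.exp_le_exp.2 (by linarith)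
    rw [Real.exp_log hA0] at e2
    linarith
  have h2p : (0 : ℝ) < 2 ^ i := by positivity
  have hlen0 : 0 ≤ len A := by
    unfold len
    have : 0 ≤ Real.log (2 * A) := Real.log_nonneg (by linarith)
    positivity
  have hb1 : (2 : ℝ) ^ i * rho2 ^ i * (len A / 2 ^ i + 1 / Ul A) ≤ rho2 ^ i * (len A + 1) := by
    have e1 : (2 : ℝ) ^ i * (len A / 2 ^ i + 1 / Ul A) ≤ len A + 1 := by
      rw [mul_add, mul_div_cancel₀ _ h2p.ne']
      have : (2 : ℝ) ^ i * (1 / Ul A) ≤ 1 := by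
        rw [mul_one_div, div_le_one w1]; exact h2i
      linarith
    calc (2 : ℝ) ^ i * rho2 ^ i * (len A / 2 ^ i + 1 / Ul A) = rho2 ^ i * (2 ^ i * (len A / 2 ^ i + 1 / Ul A)) := by ring
      _ ≤ _ := mul_le_mul_of_nonneg_left e1 (pow_nonneg rho2_pos.le _)
  refine hb1.trans ?_
  have hb2 : rho2 ^ i ≤ Real.exp r * A ^ (-(9 / 10 * r)) := by
    rw [hrho, ← Real.exp_nat_mul, Real.rpow_def_of_pos hA0, ← Real.exp_add]
    refine Real.exp_le_exp.2 ?_
    nlinarith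
  have hb3 : len A + 1 ≤ (2 ^ (r / 4) / (20 * (r / 4)) + 1) * A ^ (r / 4) := by
    have e1 := Real.log_le_rpow_div (x := 2 * A) (by linarith) (by positivity : 0 < r / 4)
    have e2 : (1 : ℝ) ≤ A ^ (r / 4) := Real.one_le_rpow hA1 (by positivity)
    rw [Real.mul_rpow (by norm_num) hA0.le] at e1
    have e3 : len A ≤ 2 ^ (r / 4) / (20 * (r / 4)) * A ^ (r / 4) := by
      unfold len
      rw [div_le_iff₀ (by norm_num)]
      calc Real.log (2 * A) ≤ 2 ^ (r / 4) * A ^ (r / 4) / (r / 4) := e1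
        _ = _ := by field_simp
    rw [add_mul, one_mul]
    linarith
  have hAp : 0 < A ^ (-(9 / 10 * r)) := Real.rpow_pos_of_pos hA0 _
  calc rho2 ^ i * (len A + 1) ≤ (Real.exp r * A ^ (-(9 / 10 * r))) *
        ((2 ^ (r / 4) / (20 * (r / 4)) + 1) * A ^ (r / 4)) :=
        mul_le_mul hb2 hb3 (by linarith) (by positivity)
    _ = K * (A ^ (-(9 / 10 * r)) * A ^ (r / 4)) := by rw [hK]; ring
    _ ≤ A ^ (r / 4) * (A ^ (-(9 / 10 * r)) * A ^ (r / 4)) := mul_le_mul_of_nonneg_right h1 (by positivity)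
    _ = A ^ (-(2 / 5 * r)) := by
        rw [← Real.rpow_add hA0, ← Real.rpow_add hA0]
        congr 1
        ring

end Pool.Agent.Q211.PD
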